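import Pool.Agent.Y254.HK.Stm
import Pool.Agent.W85.HD.Ent

/-! Job HK-BOX (project HK, helper254): a variable which lies in boxes costs the logarithm of the
size of the boxes. -/

set_option autoImplicit false
set_option linter.all false

open Finset
open scoped Classical

namespace Pool.Agent.Y710.HK
open Pool.Agent.Y254HK
open Pool.Agent.W904.AK Pool.Agent.W46.HD Pool.Agent.W46.HM Pool.Agent.Y244.HM
  Pool.Agent.W597.HD

theorem cls {R : ℝ} (hR : 1 ≤ R) : (2 : ℝ) ^ (Nat.log 2 ⌊R⌋₊) ≤ R ∧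
    R < 2 * 2 ^ (Nat.log 2 ⌊R⌋₊) := by
  have h1 : 1 ≤ ⌊R⌋₊ := by rwa [Nat.one_le_floor_iff]
  have h2 : (2 : ℕ) ^ (Nat.log 2 ⌊R⌋₊) ≤ ⌊R⌋₊ := Nat.pow_log_le_self 2 (by omega)
  have h3 : ⌊R⌋₊ < 2 ^ (Nat.log 2 ⌊R⌋₊ + 1) := Nat.lt_pow_succ_log_self (by norm_num) _
  have h4 : ((2 : ℝ) ^ (Nat.log 2 ⌊R⌋₊)) ≤ (⌊R⌋₊ : ℝ) := by exact_mod_cast h2
  have h5 : ((⌊R⌋₊ : ℝ)) + 1 ≤ 2 ^ (Nat.log 2 ⌊R⌋₊ + 1) := by exact_mod_cast h3
  refine ⟨h4.trans (Nat.floor_le (by linarith)), ?_⟩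
  have h6 := Nat.lt_floor_add_one R
  rw [pow_succ] at h5
  linarith

theorem t_box : S_BOX := by
  intro k c0 hc0
  have hl7 : 0 ≤ Real.log 7 := Real.log_nonneg (by norm_num)
  have hlc : 0 ≤ Real.log (2 * c0 + 1) := Real.log_nonneg (by linarith)
  refine ⟨Real.log (2 * c0 + 1) + 1 + k * Real.log 7, by positivity, ?_⟩
  intro Θ _ α q f g R n hn hq hR hg
  have hlog : 0 ≤ Real.log (n : ℝ) := Real.log_nonneg (by exact_mod_cast hn)
  have hlog2 : 0 ≤ Real.log (1 + Real.log n) := Real.log_nonneg (by linarith)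
  have hln2 : (1 / 2 : ℝ) ≤ Real.log 2 := by have := Real.log_two_gt_d9; linarith
  set κ : Θ → ℕ := fun x => Nat.log 2 ⌊R x⌋₊ with hκ
  -- first step
  have s1 : H q (fun x => (f x, κ x)) ≤ H q f + ∑ x, q x * (Real.log (2 * c0 + 1) +
      Real.log (1 + Real.log n)) := by
    refine Pool.Agent.W85.HD.COST Θ α ℕ q f κ _ hq fun x hx => ?_
    refine ⟨range (⌊2 * c0 * (1 + Real.log n)⌋₊ + 1), fun y hy _ => ?_, ?_⟩
    · rw [mem_range, Nat.lt_succ_iff]
      apply Nat.le_floor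
      obtain ⟨h1, h2⟩ := hR y hy
      have h3 := (cls h1).1
      have h4 := Real.log_le_log (by positivity) h3
      rw [Real.log_pow] at h4
      have h5 : ((Nat.log 2 ⌊R y⌋₊ : ℕ) : ℝ) * (1 / 2) ≤ (Nat.log 2 ⌊R y⌋₊ : ℕ) * Real.log 2 :=
        mul_le_mul_of_nonneg_left hln2 (Nat.cast_nonneg _)
      show ((Nat.log 2 ⌊R y⌋₊ : ℕ) : ℝ) ≤ 2 * c0 * (1 + Real.log n)
      linarith
    · rw [card_range]
      have h6 : ((⌊2 * c0 * (1 + Real.log n)⌋₊ + 1 : ℕ) : ℝ) ≤ (2 * c0 + 1) * (1 + Real.log n) := by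
        push_cast
        have h7 := Nat.floor_le (show 0 ≤ 2 * c0 * (1 + Real.log n) by positivity)
        nlinarith
      have h8 := Real.log_le_log (by positivity) h6
      rwa [Real.log_mul (by positivity) (by positivity)] at h8
  -- second step
  have s2 : H q (fun x => ((f x, κ x), g x)) ≤ H q (fun x => (f x, κ x)) +
      ∑ x, q x * (k * (Real.log 7 + Real.log (R x))) := by
    refine Pool.Agent.W85.HD.COST Θ (α × ℕ) (Fin k → ℤ) q _ g _ hq fun x hx => ?_
    obtain ⟨h1, h2⟩ := hR x hx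
    refine ⟨Fintype.piFinset fun i => Icc (g x i - ⌊3 * R x⌋) (g x i + ⌊3 * R x⌋),
      fun y hy hxy => ?_, ?_⟩
    · rw [Fintype.mem_piFinset]
      intro i
      have hxy' : f y = f x ∧ κ y = κ x := Prod.mk.inj hxy
      have e1 : f x = f y := hxy'.1.symm
      have e2 : κ y = κ x := hxy'.2
      obtain ⟨h3, h4⟩ := hR y hy
      have h5 := (cls h3).2
      have h6 := (cls h1).1
      have e3 : Nat.log 2 ⌊R y⌋₊ = Nat.log 2 ⌊R x⌋₊ := e2
      rw [e3] at h5
      have h7 : |(g x i : ℝ) - g y i| ≤ 3 * R x := (hg x y hx hy e1 i).trans (by linarith)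
      have h8 : |g x i - g y i| ≤ ⌊3 * R x⌋ := by
        rw [Int.le_floor]
        push_cast
        exact h7
      rw [abs_le] at h8
      rw [mem_Icc]
      constructor <;> linarith [h8.1, h8.2]
    · rw [Fintype.card_piFinset]
      have hM : (0 : ℤ) ≤ ⌊3 * R x⌋ := Int.floor_nonneg.2 (by linarith)
      have e4 : ∀ i : Fin k, (Icc (g x i - ⌊3 * R x⌋) (g x i + ⌊3 * R x⌋)).card =
          (2 * ⌊3 * R x⌋ + 1).toNat := by
        intro i
        rw [Int.card_Icc]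
        congr 1
        ring
      simp only [e4, prod_const, card_univ, Fintype.card_fin]
      push_cast
      rw [Real.log_pow]
      refine mul_le_mul_of_nonneg_left ?_ (Nat.cast_nonneg k)
      rw [← Real.log_mul (by norm_num) (by linarith)]
      have e5 : (((2 * ⌊3 * R x⌋ + 1).toNat : ℕ) : ℝ) = 2 * (⌊3 * R x⌋ : ℝ) + 1 := by
        have : (((2 * ⌊3 * R x⌋ + 1).toNat : ℤ)) = 2 * ⌊3 * R x⌋ + 1 :=
          Int.toNat_of_nonneg (by linarith)
        exact_mod_cast this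
      rw [e5]
      have h9 : (0 : ℝ) ≤ (⌊3 * R x⌋ : ℝ) := by exact_mod_cast hM
      have h10 : ((⌊3 * R x⌋ : ℤ) : ℝ) ≤ 3 * R x := Int.floor_le _
      exact Real.log_le_log (by linarith) (by linarith)
  have s3 : H q (fun x => (f x, g x)) ≤ H q (fun x => ((f x, κ x), g x)) := by
    refine H_mono hq fun x y _ _ h => ?_
    simp only [Prod.mk.injEq] at h
    exact Prod.ext h.1.1 h.2
  have t1 : ∑ x, q x * (Real.log (2 * c0 + 1) + Real.log (1 + Real.log n)) =
      Real.log (2 * c0 + 1) + Real.log (1 + Real.log n) := by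
    rw [← sum_mul, hq.total, one_mul]
  have t2 : ∑ x, q x * (k * (Real.log 7 + Real.log (R x))) =
      k * Real.log 7 + k * ∑ x, q x * Real.log (R x) := by
    have : ∀ x, q x * (k * (Real.log 7 + Real.log (R x))) =
        q x * (k * Real.log 7) + k * (q x * Real.log (R x)) := fun x => by ring
    simp only [this, sum_add_distrib, ← mul_sum, ← sum_mul, hq.total, one_mul]
  rw [t1] at s1
  rw [t2] at s2
  have t3 : 0 ≤ Real.log (2 * c0 + 1) * Real.log (1 + Real.log n) := mul_nonneg hlc hlog2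
  have t4 : 0 ≤ k * Real.log 7 * Real.log (1 + Real.log n) := by positivity
  nlinarith

end Pool.Agent.Y710.HK
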